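import Pool.Agent.Helper83.CB.Defs4

/-! # Frames over the same projection differ by a gauge transformation -/

set_option autoImplicit false

open Filter Topology MeasureTheory

namespace Pool.Agent.Helper83.CB

theorem over_key {A : Type} [NormedRing A] [NormedAlgebra ℝ A] [CompleteSpace A] (Z Y : A) :
    HasDerivAt (fun t : ℝ => NormedSpace.exp (t • (-Z)) * Y * NormedSpace.exp (t • Z))
      (-(Z * Y - Y * Z)) 0 := by
  have hd : ∀ Y : A, HasDerivAt (fun t : ℝ => NormedSpace.exp (t • Y)) Y 0 := by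
    intro Y
    have h := hasDerivAt_exp_smul_const (𝕂 := ℝ) Y (0 : ℝ)
    rwa [zero_smul, NormedSpace.exp_zero, one_mul] at h
  have := ((hd (-Z)).mul_const Y).mul (hd Z)
  refine this.congr_deriv ?_
  rw [zero_smul, zero_smul, NormedSpace.exp_zero]
  noncomm_ring

theorem over_star_smul {n : ℕ} (t : ℝ) (X : M n) : star (t • X) = t • star X := by
  have h : ∀ Y : M n, t • Y = (t : ℂ) • Y := by
    intro Y
    ext z i
    simp
  rw [h, h, star_smul]
  simp

/-- infinitesimal form of equivariance -/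
theorem over_inf {n : ℕ} {N0 : E n → ℝ} {k : Submodule ℝ (M n)} (hk : LieOf N0 k)
    (Q : M n →ₗ[ℝ] M n)
    (hQ : ∀ g ∈ PP (n := n) (m := n) N0 N0, ∀ X, Q (star g * X * g) = star g * Q X * g)
    (Z : M n) (hZ : Z ∈ k) (X : M n) : Q (Z * X - X * Z) = Z * Q X - Q X * Z := by
  have hst : ∀ t : ℝ, star (NormedSpace.exp (t • Z)) = NormedSpace.exp (t • (-Z)) := by
    intro t
    rw [NormedSpace.star_exp, over_star_smul, hk.skew Z hZ]
  have h1 : HasDerivAt (fun t : ℝ => Q (NormedSpace.exp (t • (-Z)) * X * NormedSpace.exp (t • Z)))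
      (Q (-(Z * X - X * Z))) 0 := by
    have := (LinearMap.toContinuousLinearMap Q).hasFDerivAt.comp_hasDerivAt (0 : ℝ) (over_key Z X)
    exact this
  have h2 : HasDerivAt (fun t : ℝ => NormedSpace.exp (t • (-Z)) * Q X * NormedSpace.exp (t • Z))
      (-(Z * Q X - Q X * Z)) 0 := over_key Z (Q X)
  have h3 : (fun t : ℝ => Q (NormedSpace.exp (t • (-Z)) * X * NormedSpace.exp (t • Z))) =
      fun t : ℝ => NormedSpace.exp (t • (-Z)) * Q X * NormedSpace.exp (t • Z) := by
    funext t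
    have := hQ (NormedSpace.exp (t • Z)) ((hk.mem Z).1 hZ t) X
    rw [hst t] at this
    exact this
  rw [h3] at h1
  have h4 := h1.unique h2
  rw [map_neg] at h4
  exact neg_injective h4

/-- composition of differentiable operator valued maps (over `ℝ`, operators over `ℂ`) -/
theorem over_diff_comp {X : Type} [NormedAddCommGroup X] [NormedSpace ℝ X] {a b c : ℕ}
    {f : X → E b →L[ℂ] E c} {g : X → E a →L[ℂ] E b} {x : X} (hf : DifferentiableAt ℝ f x)
    (hg : DifferentiableAt ℝ g x) : DifferentiableAt ℝ (fun y => (f y).comp (g y)) x := by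
  have h := (isBoundedBilinearMap_comp (𝕜 := ℂ) (E := E a) (F := E b) (G := E c)).differentiableAt
    (f x, g x)
  have h' := h.restrictScalars ℝ
  exact h'.comp x (hf.prodMk hg)

theorem over_ae {ι : Type} [Fintype ι] {a b : ℕ} {f : (ι → ℝ) → E a →L[ℂ] E b}
    {O : Set (ι → ℝ)} (hO : IsOpen O) (hf : ∃ C, LipschitzOnWith C f O) :
    ∀ᵐ x, x ∈ O → DifferentiableAt ℝ f x := by
  obtain ⟨C, hC⟩ := hf
  filter_upwards [hC.ae_differentiableWithinAt_of_mem (μ := volume)] with x hx hxO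
  exact (hx hxO).differentiableAt (hO.mem_nhds hxO)

/-- pointwise relations between frames over the same projection -/
theorem over_pt (hGRP : ST_GRP) {n : ℕ} {N0 : E n → ℝ} {N : E (n + 1) → ℝ}
    (hS : Setup n N0 N) (hU : Unitary N0) {π : M (n + 1)} {K K' : E (n + 1) →L[ℂ] E n}
    {L L' : E n →L[ℂ] E (n + 1)} (hL : L ∈ PP N0 N) (hLK : L.comp K = π) (hL' : L' ∈ PP N0 N)
    (hKL' : K'.comp L' = ContinuousLinearMap.id ℂ (E n)) (hLK' : L'.comp K' = π) :
    K.comp L' ∈ PP N0 N0 ∧ L' = L.comp (K.comp L') ∧ K' = (star (K.comp L')).comp K := by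
  have h1 : L' = L.comp (K.comp L') := by
    rw [← ContinuousLinearMap.comp_assoc, hLK, ← hLK', ContinuousLinearMap.comp_assoc, hKL',
      ContinuousLinearMap.comp_id]
  have h2 : K.comp L' ∈ PP N0 N0 := by
    intro z
    have e1 : N (L ((K.comp L') z)) = N0 ((K.comp L') z) := hL _
    have e2 : L ((K.comp L') z) = L' z := by
      conv_rhs => rw [h1]
      rfl
    rw [← e1, e2]
    exact hL' z
  obtain ⟨-, -, -, hst⟩ := hGRP n N0 hS.norm0 hU
  obtain ⟨-, -, h3⟩ := hst _ h2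
  have h4 : (K'.comp L).comp (K.comp L') = ContinuousLinearMap.id ℂ (E n) := by
    rw [ContinuousLinearMap.comp_assoc, ← h1, hKL']
  have h5 : K'.comp L = star (K.comp L') := by
    have h4' : (K'.comp L : M n) * (K.comp L' : M n) = 1 := h4
    calc (K'.comp L : M n) = (K'.comp L : M n) * ((K.comp L' : M n) * star (K.comp L' : M n)) := by
          rw [h3, mul_one]
      _ = star (K.comp L') := by rw [← mul_assoc, h4', one_mul]
  refine ⟨h2, h1, ?_⟩
  rw [← h5, ContinuousLinearMap.comp_assoc, hLK, ← hLK', ← ContinuousLinearMap.comp_assoc, hKL',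
    ContinuousLinearMap.id_comp]

theorem st_OVER (hGAUGE : ST_GAUGE) (hTAN : ST_TAN) (hGRP : ST_GRP) : ST_OVER := by
  intro n N0 N hS hU k hk Q0 Q1 hQ ι _ _ O π K K' L L' g hO _ hK hK' hL hL' hF hF'
  have hpt : ∀ x ∈ O, (K x).comp (L' x) ∈ PP N0 N0 ∧ L' x = (L x).comp ((K x).comp (L' x)) ∧
      K' x = (star ((K x).comp (L' x))).comp (K x) := by
    intro x hx
    obtain ⟨a1, -, a3⟩ := hF x hx
    obtain ⟨b1, b2, b3⟩ := hF' x hx
    exact over_pt hGRP hS hU a1 a3 b1 b2 b3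
  refine ⟨hpt, ?_⟩
  filter_upwards [over_ae hO hK, over_ae hO hL, over_ae hO hL'] with x d1 d2 d3 hx μ ν
  have hnx := hO.mem_nhds hx
  obtain ⟨-, -, -, hst⟩ := hGRP n N0 hS.norm0 hU
  have hda : DifferentiableAt ℝ (fun y => (K y).comp (L' y)) x := over_diff_comp (d1 hx) (d3 hx)
  have hax := (hpt x hx).1
  have e1 : ∀ᶠ y in 𝓝 x, (K y).comp (L y) = ContinuousLinearMap.id ℂ (E n) := by
    filter_upwards [hnx] with y hy
    exact (hF y hy).2.1
  have e2 : ∀ᶠ y in 𝓝 x, star ((K y).comp (L' y)) * (K y).comp (L' y) = 1 ∧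
      (K y).comp (L' y) * star ((K y).comp (L' y)) = 1 := by
    filter_upwards [hnx] with y hy
    exact ⟨(hst _ (hpt y hy).1).2.1, (hst _ (hpt y hy).1).2.2⟩
  have e3 : ∀ᶠ y in 𝓝 x, L' y = (L y).comp ((K y).comp (L' y)) := by
    filter_upwards [hnx] with y hy
    exact (hpt y hy).2.1
  have e4 : ∀ᶠ y in 𝓝 x, K' y = (star ((K y).comp (L' y))).comp (K y) := by
    filter_upwards [hnx] with y hy
    exact (hpt y hy).2.2
  have e5 : ∀ μ, star ((K x).comp (L' x)) * pd (fun y => (K y).comp (L' y)) x μ ∈ k := by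
    have e0 : ∀ᶠ y in 𝓝 x, (K y).comp (L' y) ∈ PP N0 N0 := by
      filter_upwards [hnx] with y hy
      exact (hpt y hy).1
    exact hTAN n N0 hS.norm0 hU k hk ι (fun y => (K y).comp (L' y)) x hda e0
  have e6 := hQ.ad0 _ hax
  have e7 := hQ.ad1 _ hax
  exact hGAUGE ι n k K K' L L' g Q0 Q1 (fun y => (K y).comp (L' y)) x (d1 hx) (d2 hx) hda
    e1 e2 e3 e4 e5 hQ.fix e6 e7 (fun Z hZ X => over_inf hk Q0 hQ.ad0 Z hZ X)
    (fun Z hZ X => over_inf hk Q1 hQ.ad1 Z hZ X) μ ν

end Pool.Agent.Helper83.CB
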